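import Pool.Agent.V5helper48.WC.Main

/-!
# Alterations and transfer
-/

set_option autoImplicit false
set_option linter.unusedSectionVars false

open CategoryTheory CategoryTheory.Limits CategoryTheory.Pretriangulated AlgebraicGeometry
  Pool.Agent.Y116.UV Pool.Agent.Z125.UN Pool.Agent.Q193.LT Pool.Agent.V5helper77.GW
open TopologicalSpace Order

namespace Pool.Agent.V5helper48.WC

variable {k : Type} [Field k]

/-- The property `P` passes from `V` to `U` for finite flat surjective morphisms `V → U` of integral
schemes. -/
def Descends (P : Sch k → Prop) : Prop :=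
  ∀ {V U : Sch k} (f : V ⟶ U), FT True U → IsFinite f.left → Flat f.left →
    Surjective f.left → IsIntegral V.left → IsIntegral U.left → P V → P U

/-- Devissage by alterations. -/
theorem of_alt {P : Sch k → Prop} (hP : Bnd True P) (hA : DeJong k) (hD : Descends P) (n : ℕ)
    (h : ∀ X : Sch k, IsSmProj X → topologicalKrullDim X.left ≤ n → P X)
    (X : Sch k) (hX : FT True X) (hn : topologicalKrullDim X.left ≤ n) : P X := by
  have key : ∀ m : ℕ, m ≤ n + 1 → ∀ Y : Sch k, FT True Y → topologicalKrullDim Y.left < m → P Y := by
    intro m
    induction m with
    | zero =>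
      intro _ Y _ hd
      have : IsEmpty Y.left := by
        by_contra hne
        rw [not_isEmpty_iff] at hne
        have h1 : 0 ≤ topologicalKrullDim Y.left := by
          obtain ⟨x⟩ := hne
          have h2 : Nonempty (IrreducibleCloseds Y.left) :=
            ⟨⟨closure {x}, isIrreducible_singleton.closure, isClosed_closure⟩⟩
          unfold topologicalKrullDim
          exact krullDim_nonneg
        exact absurd h1 (not_le.mpr hd)
      exact p_isEmpty hP Y
    | succ m ih =>
      intro hm Y hY hd
      rw [lt_succ_iff'] at hd
      refine of_affine_dim hP (n := m) (fun A _ _ _ hA' => ?_) Y hY hd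
      refine noeth hP (fun B _ _ hB => p_empty hP B hB) fun p hp => ?_
      obtain ⟨w, X, U, j, f, hw, hX, hj, hdim, hf1, hf2, hf3⟩ := hA (A ⧸ p)
      refine ⟨w, hw, ?_⟩
      have hD0 : IsDomain (Localization.Away w) :=
        IsLocalization.isDomain_localization (powers_le_nonZeroDivisors_of_noZeroDivisors hw)
      have hdX : topologicalKrullDim X.left ≤ m := by
        rw [hdim]
        exact (ringKrullDim_quotient_le p).trans hA'
      have hPX : P X := h X hX (hdX.trans (by exact_mod_cast (by omega : m ≤ n)))
      have hftX : FT True X := ft_of_smProj hX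
      have hneU : Nonempty U.left := by
        have h3 : Nonempty (aff k (Localization.Away w)).left := by
          change Nonempty (PrimeSpectrum (Localization.Away w))
          infer_instance
        obtain ⟨x⟩ := h3
        obtain ⟨y, _⟩ := f.left.surjective x
        exact ⟨y⟩
      have hint := hX.integral
      let V : X.left.Opens := j.left.opensRange
      have ht : IsTriple (cloMap X V) j := ⟨inferInstance, hj, range_cloMap X V⟩
      have hPU : P U := by
        refine hP.opened (cloMap X V) j hftX ht (ih (by omega) _ (ft_clo hftX) ?_) hPX
        have hirr : IsIrreducible (Set.univ : Set X.left) := IrreducibleSpace.isIrreducible_univ _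
        refine dim_lt hirr (cloMap X V).left ?_ ?_ hdX
        · exact (cloMap X V).left.isClosedEmbedding
        · rw [range_cloMap]
          intro h1
          have h2 : (V : Set X.left) = ∅ := Set.compl_univ_iff.mp h1
          obtain ⟨x⟩ := hneU
          have h4 : j.left x ∈ (V : Set X.left) := ⟨x, rfl⟩
          rw [h2] at h4
          exact h4
      have hU : IsIntegral U.left := isIntegral_of_isOpenImmersion j.left
      have hA2 : IsIntegral (aff k (Localization.Away w)).left := by
        change IsIntegral (Spec (CommRingCat.of (Localization.Away w)))
        infer_instance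
      have hft : FT True (aff k (Localization.Away w)) := by
        have : Algebra.FiniteType k (Localization.Away w) :=
          Algebra.FiniteType.trans (S := A ⧸ p) inferInstance inferInstance
        exact ft_aff True
      exact hD f hft hf1 hf2 hf3 hU hA2 hPU
  refine key (n + 1) le_rfl X hX ?_
  rw [lt_succ_iff']
  exact hn

variable {Sm : Sch k → Prop} {T : ChowData k} {S : T.C → Prop}

lemma built_descends (ht : HasTransfer T) : Descends (T.Built S) := by
  intro V U f h1 h2 h3 h4 h5 h6 h
  obtain ⟨s, r, hsr⟩ := ht f h1 h2 h3 h4 h5 h6
  exact Thick.retract s r hsr h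

/-- Devissage by de Jong's theorem. -/
theorem deJong_devissage (hT : IsChowTheory Sm T) (ht : HasTransfer T) (hS : IsTwistStable T S)
    (hA : DeJong k) (n : ℕ)
    (h : ∀ X : Sch k, IsSmProj X → topologicalKrullDim X.left ≤ n → T.Built S X) :
    ∀ X : Sch k, FT True X → topologicalKrullDim X.left ≤ n → T.Built S X :=
  of_alt (bnd_built hT hS) hA (built_descends ht) n h

end Pool.Agent.V5helper48.WC
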