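import Pool.Agent.V5helper48.WC.Thick
import Pool.Agent.V5helper77.GW.Geo
import Pool.Agent.Q193.LT.Prime

/-!
# Weight complexes: definitions
-/

set_option autoImplicit false

open CategoryTheory CategoryTheory.Limits CategoryTheory.Pretriangulated AlgebraicGeometry
  Pool.Agent.Y116.UV Pool.Agent.V5helper77.GW

namespace Pool.Agent.V5helper48.WC

/-- The data of a theory of Chow motives with rational coefficients for the schemes over the field
`k`: an additive category `C` of Chow motives (over `k` or over a field extension of `k`), the motives
`h X` of the smooth projective varieties `X` over `k` (contravariant), the weight complexes `W X` of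
all schemes `X` over `k` (Gillet and Soulé), and the Tate twists `(tw r).obj M = M(-r) = M ⊗ L^r`, `L` the
Lefschetz motive. -/
structure ChowData (k : Type) [Field k] where
  /-- the category of Chow motives -/
  C : Type 1
  [category : Category.{0} C]
  [preadditive : Preadditive C]
  [hasZeroObject : HasZeroObject C]
  [hasBinaryBiproducts : HasBinaryBiproducts C]
  /-- motives of smooth projective varieties -/
  h : Sch k → C
  /-- weight complexes -/
  W : Sch k → KCat C
  /-- Tate twists -/
  tw : ℤ → C ⥤ C
  [tw_additive : ∀ r, (tw r).Additive]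

attribute [instance] ChowData.category ChowData.preadditive ChowData.hasZeroObject
  ChowData.hasBinaryBiproducts ChowData.tw_additive

/-- There is a distinguished triangle `K → L → M → K [1]`. -/
def IsTri {C : Type 1} [Category.{0} C] [Preadditive C] [HasZeroObject C] [HasBinaryBiproducts C]
    (K L M : KCat C) : Prop :=
  ∃ (a : K ⟶ L) (b : L ⟶ M) (c : M ⟶ K⟦(1 : ℤ)⟧), Triangle.mk a b c ∈ distTriang (KCat C)

/-- `K` is a direct summand of `L [1]`. -/
def SummandShift {C : Type 1} [Category.{0} C] [Preadditive C] (K L : KCat C) : Prop :=
  ∃ (s : K ⟶ L⟦(1 : ℤ)⟧) (r : L⟦(1 : ℤ)⟧ ⟶ K), s ≫ r = 𝟙 K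

variable {k : Type} [Field k]

/-- The Tate twist of a complex. -/
noncomputable def ChowData.twK (T : ChowData k) (r : ℤ) (K : KCat T.C) : KCat T.C :=
  ((T.tw r).mapHomotopyCategory (ComplexShape.up ℤ)).obj K

/-- The properties of the weight complexes (Gillet and Soulé); `Sm` is the class of the smooth
projective varieties, or of the smooth proper schemes:

* `tw_zero`, `tw_add`: the composition of the Tate twists;
* `smooth`, `point`: for `X` in `Sm` and for the point the weight complex is `h X` in degree zero;
* `iso`: isomorphic schemes have isomorphic weight complexes;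
* `localization`: the distinguished triangle `W U → W X → W Z → W U [1]` of a closed subscheme `Z`
  of `X` and its complement `U`;
* `bundle`: `W E = W U ⊗ L^(m-1)` for the affine bundle `E = Spec B[w_1, …, w_m] / (∑ f_l w_l - 1) → U`
  with fibre `𝔸^(m-1)`, where `U` is the complement of `f = 0` in `Spec B`;
* `torus`: `W X` is a direct summand of `W (X × 𝔾_m) [1]`. -/
structure IsChowTheory (Sm : Sch k → Prop) (T : ChowData k) : Prop where
  tw_zero : Nonempty (T.tw 0 ≅ 𝟭 T.C)
  tw_add : ∀ r s : ℤ, Nonempty (T.tw s ⋙ T.tw r ≅ T.tw (r + s))
  smooth : ∀ X : Sch k, Sm X → Nonempty (T.W X ≅ inZero (T.h X))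
  point : Nonempty (T.W (aff k k) ≅ inZero (T.h (aff k k)))
  iso : ∀ {X Y : Sch k}, FT True X → Nonempty (X ≅ Y) → Nonempty (T.W X ≅ T.W Y)
  localization : ∀ {Z X U : Sch k} (i : Z ⟶ X) (j : U ⟶ X), FT True X → IsTriple i j →
    IsTri (T.W U) (T.W X) (T.W Z)
  bundle : ∀ (B : Type) [CommRing B] [Algebra k B] [Algebra.FiniteType k B] (m : ℕ)
    (f : Fin m → B) (U : Sch k) (j : U ⟶ aff k B), IsOpenImmersion j.left →
    Set.range j.left = {x : PrimeSpectrum B | ∃ l, f l ∉ x.asIdeal} →
    Nonempty (T.W (aff k (Jou f)) ≅ T.twK (m - 1) (T.W U))
  torus : ∀ (B : Type) [CommRing B] [Algebra k B] [Algebra.FiniteType k B],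
    SummandShift (T.W (aff k B)) (T.W (aff k (LaurentPolynomial B)))

/-- Transfer: for a finite flat surjective morphism `V → U` of integral schemes the weight complex of
`U` is a direct summand of the weight complex of `V` (the composition of the pull-back and the push
forward is the multiplication by the degree, and the coefficients are rational). -/
def HasTransfer (T : ChowData k) : Prop :=
  ∀ {V U : Sch k} (f : V ⟶ U), FT True U → IsFinite f.left → Flat f.left →
    Surjective f.left → IsIntegral V.left → IsIntegral U.left →
      ∃ (s : T.W U ⟶ T.W V) (r : T.W V ⟶ T.W U), s ≫ r = 𝟙 _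

/-- **De Jong's theorem** on alterations: an integral affine variety `Spec A` over `k` has an open
subvariety `Spec A_w` which is the target of a finite flat surjective morphism from an open
subvariety `U` of a smooth projective variety of the same dimension. -/
def DeJong (k : Type) [Field k] : Prop :=
  ∀ (A : Type) [CommRing A] [IsDomain A] [Algebra k A] [Algebra.FiniteType k A],
    ∃ (w : A) (X U : Sch k) (j : U ⟶ X) (f : U ⟶ aff k (Localization.Away w)),
      w ≠ 0 ∧ IsSmProj X ∧ IsOpenImmersion j.left ∧ topologicalKrullDim X.left = ringKrullDim A ∧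
        IsFinite f.left ∧ Flat f.left ∧ Surjective f.left

/-- A class of motives which is closed under direct sums, direct summands and Tate twists, and
which contains the unit motive. -/
structure IsTwistStable (T : ChowData k) (S : T.C → Prop) : Prop extends IsSummandClass S where
  twist : ∀ (r : ℤ) (M : T.C), S ((T.tw r).obj M) ↔ S M
  unit : S (T.h (aff k k))

/-- The weight complex of `X` is built from motives in `S`: it lies in the thick subcategory
generated by these motives (in degree zero). -/
def ChowData.Built (T : ChowData k) (S : T.C → Prop) (X : Sch k) : Prop :=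
  Thick (fun K => ∃ M, S M ∧ K = inZero M) (T.W X)

end Pool.Agent.V5helper48.WC
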