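import Pool.Agent.V5helper48.WC.Alt

/-!
# The generalized Tate conjecture for Chow motives
-/

set_option autoImplicit false
set_option linter.unusedSectionVars false

open CategoryTheory CategoryTheory.Limits AlgebraicGeometry Polynomial
  Pool.Agent.Y116.UV Pool.Agent.V5helper77.GW

namespace Pool.Agent.V5helper48.WC

variable {k : Type} [Field k]

/-- The `ℓ`-adic cohomology of the Chow motives over `k`, with coefficients in the field `F = ℚ_ℓ`. -/
structure GaloisData (T : ChowData k) where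
  /-- the field of coefficients -/
  F : Type
  [field : Field F]
  [charZero : CharZero F]
  /-- the Galois group of `k` -/
  Γ : Type
  [group : Group Γ]
  /-- the cohomology `Coh i M = H^i(M_{k̄}, ℚ_ℓ)` -/
  Coh : ℤ → T.C → Type
  [acg : ∀ i M, AddCommGroup (Coh i M)]
  [mod : ∀ i M, Module F (Coh i M)]
  /-- the maps induced by the morphisms of motives -/
  map : ∀ (i : ℤ) {M N : T.C}, (M ⟶ N) → Coh i M → Coh i N
  /-- the action of the Galois group -/
  rho : ∀ (i : ℤ) (M : T.C), Γ → Coh i M → Coh i M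
  /-- the action of the Galois group on `ℚ_ℓ(-1)` -/
  χ : Γ → F
  /-- the places of `k` -/
  Pl : Type
  /-- the geometric Frobenius elements at a place -/
  Fr : Pl → Set Γ
  /-- the order of the residue field of a place -/
  q : Pl → ℕ
  /-- the filter of the sets of places which contain almost all places (for a finite field there is
  one place, and the filter contains only the whole set) -/
  ev : Filter Pl

attribute [instance] GaloisData.field GaloisData.charZero GaloisData.group GaloisData.acg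
  GaloisData.mod

/-- The map `c f` is a zero of a monic polynomial `∑ a_n X^n` with integral coefficients on `V`; for
`f` linear and `V` stable under `f` this means that for all eigenvalues `α` of `f` on `V` the number `c α`
is an algebraic integer. -/
def IntegralOn {F E : Type} [Field F] [AddCommGroup E] [Module F E] (c : F) (f : E → E)
    (V : Submodule F E) : Prop :=
  ∃ P : ℤ[X], P.Monic ∧ ∀ x ∈ V, P.sum (fun n a => ((a : F) * c ^ n) • f^[n] x) = 0

variable {T : ChowData k} (W : GaloisData T)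

/-- The subspace `V` of `H^i(M)` is a Galois subrepresentation. -/
def GaloisData.Stable {i : ℤ} {M : T.C} (V : Submodule W.F (W.Coh i M)) : Prop :=
  ∀ γ : W.Γ, ∀ x ∈ V, W.rho i M γ x ∈ V

/-- The twist `V(ν)` of the subrepresentation `V` of `H^i(M)` is effective (of weight `i - 2 ν`): for
almost all places `v` and all eigenvalues `α` of the geometric Frobenius elements at `v` on `V` the
numbers `α / q_v ^ ν` and `q_v ^ (i - ν) / α` are algebraic integers. -/
def GaloisData.Effective (ν : ℤ) {i : ℤ} {M : T.C} (V : Submodule W.F (W.Coh i M)) : Prop :=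
  ∀ᶠ v in W.ev, ∀ γ ∈ W.Fr v, IntegralOn ((W.q v : W.F) ^ (-ν)) (W.rho i M γ) V ∧
    IntegralOn ((W.q v : W.F) ^ (i - ν)) (W.rho i M γ⁻¹) V

/-- The step `ν` of the Galois coniveau filtration of `H^i(M)`. -/
def GaloisData.conL (ν i : ℤ) (M : T.C) : Submodule W.F (W.Coh i M) :=
  sSup {V | W.Stable V ∧ W.Effective ν V}

/-- The step `ν` of the geometric coniveau filtration of `H^i(M)`: the sum of the images of all the
morphisms `h Y (-ν) → M`, for `Y` smooth projective. -/
def GaloisData.conG (ν i : ℤ) (M : T.C) : Submodule W.F (W.Coh i M) :=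
  Submodule.span W.F {x | ∃ (Y : Sch k) (f : (T.tw ν).obj (T.h Y) ⟶ M) (z : _), IsSmProj Y ∧
    x = W.map i f z}

/-- The **generalized Tate conjecture** for the motive `M`. -/
def GTC (M : T.C) : Prop :=
  ∀ i ν : ℤ, W.conL ν i M ≤ W.conG ν i M

/-- The **generalized Tate conjecture** for `X`: `N^ν_ℓ H^i(X) ⊆ N^ν H^i(X)` for all `i` and all `ν ≥ 0`. -/
def GTCFor (X : Sch k) : Prop :=
  ∀ i ν : ℤ, 0 ≤ ν → W.conL ν i (T.h X) ≤ W.conG ν i (T.h X)

/-- The bijections `e` identify `H^i(M(-r))` with `H^(i - 2 r)(M)(-r)`. -/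
structure GaloisData.IsTwist (r i : ℤ)
    (e : ∀ M : T.C, W.Coh i ((T.tw r).obj M) → W.Coh (i - 2 * r) M) : Prop where
  linear : ∀ M, IsLinearMap W.F (e M)
  bijective : ∀ M, Function.Bijective (e M)
  map : ∀ {M N : T.C} (f : M ⟶ N) (x), e N (W.map i ((T.tw r).map f) x) =
    W.map (i - 2 * r) f (e M x)
  rho : ∀ (γ : W.Γ) (M : T.C) (x), W.rho (i - 2 * r) M γ (e M x) =
    (W.χ γ ^ (-r)) • e M (W.rho i ((T.tw r).obj M) γ x)

/-- The properties which are used: the cohomology is an additive functor with values in the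
representations of the Galois group; the geometric Frobenius elements at `v` act on `ℚ_ℓ(-1)` by `q_v`;
`H^i(M(-r)) = H^(i - 2 r)(M)(-r)`; the cohomology of the point is `ℚ_ℓ` in degree zero with the
trivial action; for `ν ≤ 0` the step `ν` of the geometric coniveau filtration of `H^i(X)` is `H^i(X)`, as
`h X` is a direct summand of `h (X × ℙ^{-ν}) (-ν)`. -/
structure IsGaloisData : Prop where
  map_linear : ∀ (i : ℤ) {M N : T.C} (f : M ⟶ N), IsLinearMap W.F (W.map i f)
  map_id : ∀ (i : ℤ) (M : T.C) (x), W.map i (𝟙 M) x = x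
  map_comp : ∀ (i : ℤ) {L M N : T.C} (f : L ⟶ M) (g : M ⟶ N) (x),
    W.map i (f ≫ g) x = W.map i g (W.map i f x)
  map_add : ∀ (i : ℤ) {M N : T.C} (f g : M ⟶ N) (x), W.map i (f + g) x = W.map i f x + W.map i g x
  rho_linear : ∀ (i : ℤ) (M : T.C) (γ : W.Γ), IsLinearMap W.F (W.rho i M γ)
  rho_one : ∀ (i : ℤ) (M : T.C) (x), W.rho i M 1 x = x
  rho_mul : ∀ (i : ℤ) (M : T.C) (γ δ : W.Γ) (x), W.rho i M (γ * δ) x = W.rho i M γ (W.rho i M δ x)
  rho_map : ∀ (i : ℤ) {M N : T.C} (f : M ⟶ N) (γ : W.Γ) (x),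
    W.map i f (W.rho i M γ x) = W.rho i N γ (W.map i f x)
  χ_one : W.χ 1 = 1
  χ_mul : ∀ γ δ : W.Γ, W.χ (γ * δ) = W.χ γ * W.χ δ
  one_lt : ∀ v, 1 < W.q v
  frob_nonempty : ∀ v, (W.Fr v).Nonempty
  neBot : W.ev.NeBot
  frob : ∀ v, ∀ γ ∈ W.Fr v, W.χ γ = W.q v
  twist : ∀ r i : ℤ, ∃ e, W.IsTwist r i e
  point : ∀ i : ℤ, i ≠ 0 → Subsingleton (W.Coh i (T.h (aff k k)))
  point_act : ∀ (γ : W.Γ) (x), W.rho 0 (T.h (aff k k)) γ x = x
  conG_top : ∀ X : Sch k, IsSmProj X → ∀ i ν : ℤ, ν ≤ 0 → W.conG ν i (T.h X) = ⊤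
  conG_point : ∀ i ν : ℤ, ν ≤ 0 → W.conG ν i (T.h (aff k k)) = ⊤

variable {W}

section basic

variable {F E E' : Type} [Field F] [AddCommGroup E] [Module F E] [AddCommGroup E'] [Module F E']

lemma iterate_comm {f : E → E} {g : E' → E'} {u : E → E'} (hg : IsLinearMap F g)
    {s : F} (h : ∀ x, g (u x) = s • u (f x)) (n : ℕ) (x : E) :
    g^[n] (u x) = s ^ n • u (f^[n] x) := by
  induction n with
  | zero => simp
  | succ n ih =>
    rw [Function.iterate_succ_apply', Function.iterate_succ_apply', ih, hg.map_smul, h, smul_smul,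
      pow_succ]

lemma IntegralOn.map {c c' s : F} {f : E → E} {g : E' → E'} {u : E → E'} (hu : IsLinearMap F u)
    (hg : IsLinearMap F g) (h : ∀ x, g (u x) = s • u (f x)) (hc : c' * s = c)
    {V : Submodule F E} {V' : Submodule F E'} (hV' : ∀ y ∈ V', ∃ x ∈ V, u x = y)
    (hV : IntegralOn c f V) : IntegralOn c' g V' := by
  obtain ⟨P, hP, h1⟩ := hV
  refine ⟨P, hP, ?_⟩
  intro y hy
  obtain ⟨x, hx, rfl⟩ := hV' y hy
  have h2 := congrArg (hu.mk' u) (h1 x hx)
  rw [Polynomial.sum, map_sum, map_zero] at h2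
  rw [Polynomial.sum, ← h2]
  refine Finset.sum_congr rfl fun n _ => ?_
  rw [iterate_comm hg h, smul_smul, map_smul]
  change _ = _ • u _
  rw [mul_assoc, ← mul_pow, hc]

end basic

/-- the linear map -/
def mapL (hW : IsGaloisData W) (i : ℤ) {M N : T.C} (f : M ⟶ N) :
    W.Coh i M →ₗ[W.F] W.Coh i N := (hW.map_linear i f).mk' _

lemma mapL_apply (hW : IsGaloisData W) (i : ℤ) {M N : T.C} (f : M ⟶ N) (x : W.Coh i M) :
    mapL hW i f x = W.map i f x := rfl

lemma stable_map (hW : IsGaloisData W) {i : ℤ} {M N : T.C} (g : M ⟶ N)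
    {V : Submodule W.F (W.Coh i M)} (hV : W.Stable V) : W.Stable (V.map (mapL hW i g)) := by
  rintro γ _ ⟨x, hx, rfl⟩
  rw [mapL_apply, ← hW.rho_map]
  exact ⟨_, hV γ x hx, rfl⟩

lemma effective_map (hW : IsGaloisData W) {ν i : ℤ} {M N : T.C} (g : M ⟶ N)
    {V : Submodule W.F (W.Coh i M)} (hV : W.Effective ν V) :
    W.Effective ν (V.map (mapL hW i g)) := by
  filter_upwards [hV] with v hv γ hγ
  obtain ⟨h1, h2⟩ := hv γ hγ
  refine ⟨h1.map (s := 1) (hW.map_linear i g) (hW.rho_linear i N _) (fun x => ?_) (mul_one _) ?_,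
    h2.map (s := 1) (hW.map_linear i g) (hW.rho_linear i N _) (fun x => ?_) (mul_one _) ?_⟩
  · rw [one_smul, hW.rho_map]
  · rintro _ ⟨x, hx, rfl⟩
    exact ⟨x, hx, rfl⟩
  · rw [one_smul, hW.rho_map]
  · rintro _ ⟨x, hx, rfl⟩
    exact ⟨x, hx, rfl⟩

lemma conL_map (hW : IsGaloisData W) {ν i : ℤ} {M N : T.C} (g : M ⟶ N)
    {V : Submodule W.F (W.Coh i M)} (h1 : W.Stable V) (h2 : W.Effective ν V) :
    V.map (mapL hW i g) ≤ W.conL ν i N :=
  le_sSup ⟨stable_map hW g h1, effective_map hW g h2⟩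

lemma conG_map (hW : IsGaloisData W) {ν i : ℤ} {M N : T.C} (g : M ⟶ N) {x : W.Coh i M}
    (hx : x ∈ W.conG ν i M) : W.map i g x ∈ W.conG ν i N := by
  have key : W.conG ν i M ≤ (W.conG ν i N).comap (mapL hW i g) := by
    refine Submodule.span_le.mpr ?_
    rintro _ ⟨Y, f, z, hY, rfl⟩
    refine Submodule.subset_span ⟨Y, f ≫ g, z, hY, ?_⟩
    rw [mapL_apply, hW.map_comp]
  exact key hx

/-- For the conjecture it is enough to consider single subrepresentations. -/
lemma gtc_of {M : T.C} (h : ∀ (i ν : ℤ) (V : Submodule W.F (W.Coh i M)), W.Stable V →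
    W.Effective ν V → V ≤ W.conG ν i M) : GTC W M :=
  fun i ν => sSup_le fun V hV => h i ν V hV.1 hV.2

lemma gtc_retract (hW : IsGaloisData W) {M N : T.C} (a : M ⟶ N) (r : N ⟶ M)
    (h : a ≫ r = 𝟙 M) (hN : GTC W N) : GTC W M := by
  refine gtc_of fun i ν V h1 h2 x hx => ?_
  have h3 : W.map i a x ∈ W.conG ν i N := hN i ν (conL_map hW a h1 h2 ⟨x, hx, rfl⟩)
  have h4 := conG_map hW r h3
  rwa [← hW.map_comp, h, hW.map_id] at h4

lemma map_zero' (hW : IsGaloisData W) (i : ℤ) (M N : T.C) (x : W.Coh i M) :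
    W.map i (0 : M ⟶ N) x = 0 := by
  have h := hW.map_add i (0 : M ⟶ N) 0 x
  rw [add_zero] at h
  exact left_eq_add.mp h

lemma gtc_zero (hW : IsGaloisData W) {M : T.C} (hM : IsZero M) : GTC W M := by
  refine gtc_of fun i ν V _ _ x _ => ?_
  have h1 : x = 0 := by
    have h2 := hW.map_id i M x
    rw [hM.eq_of_src (𝟙 M) 0, map_zero' hW] at h2
    exact h2.symm
  rw [h1]
  exact Submodule.zero_mem _

lemma gtc_sum (hW : IsGaloisData W) {M N : T.C} (hM : GTC W M) (hN : GTC W N) :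
    GTC W (M ⊞ N) := by
  refine gtc_of fun i ν V h1 h2 x hx => ?_
  have h3 := hM i ν (conL_map hW (biprod.fst : M ⊞ N ⟶ M) h1 h2 ⟨x, hx, rfl⟩)
  have h4 := hN i ν (conL_map hW (biprod.snd : M ⊞ N ⟶ N) h1 h2 ⟨x, hx, rfl⟩)
  have h5 := Submodule.add_mem _ (conG_map hW (biprod.inl : M ⟶ M ⊞ N) h3)
    (conG_map hW (biprod.inr : N ⟶ M ⊞ N) h4)
  rwa [mapL_apply, mapL_apply, ← hW.map_comp, ← hW.map_comp, ← hW.map_add,
    biprod.total, hW.map_id] at h5

end Pool.Agent.V5helper48.WC
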