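import Pool.Agent.V5helper48.WC.Gtc

/-!
# The generalized Tate conjecture for Chow motives: Tate twists and the point
-/

set_option autoImplicit false
set_option linter.unusedSectionVars false

open CategoryTheory CategoryTheory.Limits AlgebraicGeometry Polynomial
  Pool.Agent.Y116.UV Pool.Agent.V5helper77.GW

namespace Pool.Agent.V5helper48.WC

variable {k : Type} [Field k] {T : ChowData k} {W : GaloisData T} {Sm : Sch k → Prop}

lemma conG_tw (hT : IsChowTheory Sm T) (hW : IsGaloisData W) {i ν r : ℤ} (M : T.C)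
    (e : ∀ M : T.C, W.Coh i ((T.tw r).obj M) → W.Coh (i - 2 * r) M)
    (he : W.IsTwist r i e) (x : W.Coh i ((T.tw r).obj M))
    (hy : e M x ∈ W.conG (ν - r) (i - 2 * r) M) : x ∈ W.conG ν i ((T.tw r).obj M) := by
  have key : W.conG (ν - r) (i - 2 * r) M ≤
      (W.conG ν i ((T.tw r).obj M)).map ((he.linear M).mk' _) := by
    refine Submodule.span_le.mpr ?_
    rintro _ ⟨Y, f, z, hY, rfl⟩
    have a : (T.tw ν).obj (T.h Y) ≅ (T.tw r).obj ((T.tw (ν - r)).obj (T.h Y)) := by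
      have h1 := (hT.tw_add r (ν - r)).some.app (T.h Y)
      rw [add_sub_cancel] at h1
      exact h1.symm
    obtain ⟨w, hw⟩ := (he.bijective _).2 z
    refine ⟨W.map i ((T.tw r).map f) w, ?_, ?_⟩
    · refine Submodule.subset_span ⟨Y, a.hom ≫ (T.tw r).map f, W.map i a.inv w, hY, ?_⟩
      rw [← hW.map_comp, a.inv_hom_id_assoc]
    · change e M (W.map i ((T.tw r).map f) w) = _
      rw [he.map, hw]
  obtain ⟨x', hx', h1⟩ := key hy
  have h2 : x' = x := (he.bijective M).1 h1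
  rwa [← h2]

lemma χ_inv (hW : IsGaloisData W) (γ : W.Γ) : W.χ γ⁻¹ = (W.χ γ)⁻¹ := by
  have h := hW.χ_mul γ⁻¹ γ
  rw [inv_mul_cancel, hW.χ_one] at h
  exact eq_inv_of_mul_eq_one_left h.symm

lemma gtc_tw (hT : IsChowTheory Sm T) (hW : IsGaloisData W) (r : ℤ) {M : T.C}
    (h : GTC W M) : GTC W ((T.tw r).obj M) := by
  refine gtc_of fun i ν V h1 h2 x hx => ?_
  obtain ⟨e, he⟩ := hW.twist r i
  let u : W.Coh i ((T.tw r).obj M) →ₗ[W.F] W.Coh (i - 2 * r) M := (he.linear M).mk' _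
  have h3 : W.Stable (V.map u) := by
    rintro γ _ ⟨y, hy, rfl⟩
    change W.rho (i - 2 * r) M γ (e M y) ∈ _
    rw [he.rho]
    exact Submodule.smul_mem _ _ ⟨_, h1 γ y hy, rfl⟩
  have h4 : W.Effective (ν - r) (V.map u) := by
    filter_upwards [h2] with v hv γ hγ
    obtain ⟨h5, h6⟩ := hv γ hγ
    have hq : (W.q v : W.F) ≠ 0 := by
      have := hW.one_lt v
      exact Nat.cast_ne_zero.mpr (by omega)
    refine ⟨h5.map (he.linear M) (hW.rho_linear _ M γ) (he.rho γ M) ?_ ?_,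
      h6.map (he.linear M) (hW.rho_linear _ M γ⁻¹) (he.rho γ⁻¹ M) ?_ ?_⟩
    · rw [hW.frob v γ hγ, ← zpow_add₀ hq]
      congr 1
      ring
    · rintro _ ⟨y, hy, rfl⟩
      exact ⟨y, hy, rfl⟩
    · rw [χ_inv hW, hW.frob v γ hγ, inv_zpow', neg_neg, ← zpow_add₀ hq]
      congr 1
      ring
    · rintro _ ⟨y, hy, rfl⟩
      exact ⟨y, hy, rfl⟩
  have h5 : u x ∈ W.conG (ν - r) (i - 2 * r) M :=
    h _ _ ((le_sSup (⟨h3, h4⟩ : W.Stable (V.map u) ∧ W.Effective (ν - r) (V.map u)) :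
      V.map u ≤ W.conL (ν - r) (i - 2 * r) M) ⟨x, hx, rfl⟩)
  exact conG_tw hT hW M e he x h5

lemma gtc_iso (hW : IsGaloisData W) {M N : T.C} (e : M ≅ N) (h : GTC W N) : GTC W M :=
  gtc_retract hW e.hom e.inv e.hom_inv_id h

lemma gtc_twist (hT : IsChowTheory Sm T) (hW : IsGaloisData W) (r : ℤ) (M : T.C) :
    GTC W ((T.tw r).obj M) ↔ GTC W M := by
  refine ⟨fun h => ?_, gtc_tw hT hW r⟩
  have h1 := gtc_tw hT hW (-r) h
  have e1 := (hT.tw_add (-r) r).some.app M
  have e2 := hT.tw_zero.some.app M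
  rw [neg_add_cancel] at e1
  exact gtc_iso hW (e2.symm ≪≫ e1.symm) h1

lemma not_integral {F : Type} [Field F] [CharZero F] {q : ℕ} (hq : 1 < q) {ν : ℤ} (hν : 0 < ν) :
    ¬ IsIntegral ℤ ((q : F) ^ (-ν)) := by
  intro h
  obtain ⟨n, rfl⟩ := Int.eq_ofNat_of_zero_le hν.le
  have h1 : IsIntegral ℤ ((q : ℚ) ^ (-(n : ℤ))) := by
    have h2 : (q : F) ^ (-(n : ℤ)) = algebraMap ℚ F ((q : ℚ) ^ (-(n : ℤ))) := by simp
    rw [h2] at h
    exact (isIntegral_algebraMap_iff (algebraMap ℚ F).injective).mp h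
  obtain ⟨z, hz⟩ := IsIntegrallyClosed.isIntegral_iff.mp h1
  have h3 : (0 : ℚ) < (q : ℚ) ^ (-(n : ℤ)) := by positivity
  have h4 : (q : ℚ) ^ (-(n : ℤ)) < 1 := by
    rw [zpow_neg, zpow_natCast]
    have h5 : (1 : ℚ) < (q : ℚ) ^ n := by
      have hn : n ≠ 0 := by
        rintro rfl
        simp at hν
      exact one_lt_pow₀ (by exact_mod_cast hq) hn
    exact inv_lt_one_of_one_lt₀ h5
  have h5 : ((z : ℤ) : ℚ) = (q : ℚ) ^ (-(n : ℤ)) := by simpa using hz
  rw [← h5] at h3 h4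
  have h6 : (0 : ℤ) < z := by exact_mod_cast h3
  have h7 : z < 1 := by exact_mod_cast h4
  omega

lemma gtc_of_gtcFor (hW : IsGaloisData W) {X : Sch k} (hX : IsSmProj X) :
    GTCFor W X ↔ GTC W (T.h X) := by
  refine ⟨fun h i ν => ?_, fun h i ν _ => h i ν⟩
  rcases le_total ν 0 with hν | hν
  · rw [hW.conG_top X hX i ν hν]
    exact le_top
  · exact h i ν hν

lemma gtc_point (hW : IsGaloisData W) : GTC W (T.h (aff k k)) := by
  refine gtc_of fun i ν V h1 h2 x hx => ?_
  by_cases hi : i = 0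
  · subst hi
    by_cases hν : ν ≤ 0
    · rw [hW.conG_point 0 ν hν]
      exact Submodule.mem_top
    · push Not at hν
      have hne := hW.neBot
      obtain ⟨v, hv⟩ := h2.exists
      obtain ⟨γ, hγ⟩ := hW.frob_nonempty v
      obtain ⟨P, hP, h3⟩ := (hv γ hγ).1
      have h4 := h3 x hx
      have h5 : ∀ n, (W.rho 0 (T.h (aff k k)) γ)^[n] x = x := by
        intro n
        induction n with
        | zero => rfl
        | succ n ih => rw [Function.iterate_succ_apply', ih, hW.point_act]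
      simp only [h5] at h4
      rw [Polynomial.sum, ← Finset.sum_smul] at h4
      by_contra hcon
      have hx0 : x ≠ 0 := by
        rintro rfl
        exact hcon (Submodule.zero_mem _)
      rcases smul_eq_zero.mp h4 with h6 | h6
      · refine not_integral (F := W.F) (hW.one_lt v) hν ⟨P, hP, ?_⟩
        rw [eval₂_eq_sum, Polynomial.sum, ← h6]
        rfl
      · exact hx0 h6
  · have h3 : Subsingleton (W.Coh i (T.h (aff k k))) := hW.point i hi
    rw [h3.elim x 0]
    exact Submodule.zero_mem _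

/-- The motives which satisfy the generalized Tate conjecture form a twist stable class. -/
theorem gtc_stable (hT : IsChowTheory Sm T) (hW : IsGaloisData W) :
    IsTwistStable T (GTC W) where
  zero := fun _ hM => gtc_zero hW hM
  retract := fun i r h hN => gtc_retract hW i r h hN
  sum := fun hM hN => gtc_sum hW hM hN
  twist := gtc_twist hT hW
  unit := gtc_point hW

end Pool.Agent.V5helper48.WC
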