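import Pool.Agent.V5helper48.WC.Defs

/-!
# Classes of Chow motives, weight complexes and trilinear forms
-/

set_option autoImplicit false
set_option linter.unusedSectionVars false

open CategoryTheory CategoryTheory.Limits CategoryTheory.Pretriangulated AlgebraicGeometry
  Pool.Agent.Y116.UV Pool.Agent.Z125.UN Pool.Agent.Q193.LT Pool.Agent.V5helper77.GW
open scoped ZeroObject

universe v u v' u'

namespace Pool.Agent.V5helper48.WC

section thick

variable {D : Type u} [Category.{v} D] [Preadditive D] [HasZeroObject D] [HasShift D ℤ]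
  [∀ n : ℤ, (shiftFunctor D n).Additive] [Pretriangulated D] {P : D → Prop}
  {D' : Type u'} [Category.{v'} D'] [Preadditive D'] [HasZeroObject D'] [HasShift D' ℤ]
  [∀ n : ℤ, (shiftFunctor D' n).Additive] [Pretriangulated D'] {Q : D' → Prop}

lemma Thick.iso {K L : D} (e : Nonempty (K ≅ L)) (h : Thick P L) : Thick P K :=
  .retract e.some.hom e.some.inv e.some.hom_inv_id h

lemma Thick.shift {K : D} (h : Thick P K) : Thick P (K⟦(1 : ℤ)⟧) := by
  have hT := rot_of_distTriang _ (contractible_distinguished K)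
  exact .three _ hT h (.zero (isZero_zero D))

lemma Thick.map (F : D ⥤ D') [F.CommShift ℤ] [F.IsTriangulated]
    (hF : ∀ K, P K → Thick Q (F.obj K)) {K : D} (h : Thick P K) : Thick Q (F.obj K) := by
  induction h with
  | of h => exact hF _ h
  | zero h => exact .zero (F.map_isZero h)
  | retract i r h _ ih => exact .retract (F.map i) (F.map r) (by rw [← F.map_comp, h, F.map_id]) ih
  | one T hT _ _ h2 h3 => exact .one _ (F.map_distinguished T hT) h2 h3
  | two T hT _ _ h2 h3 => exact .two _ (F.map_distinguished T hT) h2 h3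
  | three T hT _ _ h2 h3 => exact .three _ (F.map_distinguished T hT) h2 h3

lemma Thick.mono {P' : D → Prop} (hP : ∀ K, P K → P' K) {K : D} (h : Thick P K) :
    Thick P' K := by
  induction h with
  | of h => exact .of (hP _ h)
  | zero h => exact .zero h
  | retract i r h _ ih => exact .retract i r h ih
  | one T hT _ _ h2 h3 => exact .one T hT h2 h3
  | two T hT _ _ h2 h3 => exact .two T hT h2 h3
  | three T hT _ _ h2 h3 => exact .three T hT h2 h3

end thick

/-- The functor on complexes given by an additive functor, on objects in degree zero. -/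
noncomputable def inZeroMap {C : Type u} [Category.{v} C] [Preadditive C] [HasZeroObject C]
    {C' : Type u'} [Category.{v'} C'] [Preadditive C'] [HasZeroObject C'] (F : C ⥤ C')
    [F.Additive] (M : C) :
    (F.mapHomotopyCategory (ComplexShape.up ℤ)).obj (inZero M) ≅ inZero (F.obj M) :=
  (HomotopyCategory.quotient _ _).mapIso
    ((HomologicalComplex.singleMapHomologicalComplex F (ComplexShape.up ℤ) 0).app M)

/-- Functors whose composition is isomorphic to the identity, on complexes. -/
lemma comp_iso {C : Type u} [Category.{v} C] [Preadditive C] (F G : C ⥤ C) [F.Additive]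
    [G.Additive] (e : F ⋙ G ≅ 𝟭 C) (K : KCat C) :
    Nonempty ((G.mapHomotopyCategory (ComplexShape.up ℤ)).obj
      ((F.mapHomotopyCategory (ComplexShape.up ℤ)).obj K) ≅ K) := by
  obtain ⟨K⟩ := K
  let e' : (G.mapHomologicalComplex (ComplexShape.up ℤ)).obj
      ((F.mapHomologicalComplex (ComplexShape.up ℤ)).obj K) ≅ K :=
    HomologicalComplex.Hom.isoOfComponents (fun i => e.app (K.X i)) (fun i j _ =>
      (e.hom.naturality (K.d i j)).symm)
  exact ⟨(HomotopyCategory.quotient _ _).mapIso e'⟩

section theory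

variable {k : Type} [Field k] {Sm : Sch k → Prop} {T : ChowData k} {S : T.C → Prop}

lemma built_tw (hS : IsTwistStable T S) (r : ℤ) {K : KCat T.C}
    (h : Thick (fun K => ∃ M, S M ∧ K = inZero M) K) :
    Thick (fun K => ∃ M, S M ∧ K = inZero M)
      (((T.tw r).mapHomotopyCategory (ComplexShape.up ℤ)).obj K) := by
  refine Thick.map _ ?_ h
  rintro K ⟨M, hM, rfl⟩
  exact Thick.iso ⟨inZeroMap (T.tw r) M⟩ (.of ⟨_, (hS.twist r M).mpr hM, rfl⟩)

/-- Twisting back. -/
lemma tw_tw (hT : IsChowTheory Sm T) (hS : IsTwistStable T S) (r : ℤ) {K : KCat T.C}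
    (h : Thick (fun K => ∃ M, S M ∧ K = inZero M)
      (((T.tw r).mapHomotopyCategory (ComplexShape.up ℤ)).obj K)) :
    Thick (fun K => ∃ M, S M ∧ K = inZero M) K := by
  have h1 := built_tw hS (-r) h
  obtain ⟨e⟩ := hT.tw_add (-r) r
  obtain ⟨e0⟩ := hT.tw_zero
  rw [neg_add_cancel] at e
  obtain ⟨e1⟩ := comp_iso (T.tw r) (T.tw (-r)) (e ≪≫ e0) K
  exact Thick.iso ⟨e1.symm⟩ h1

/-- The schemes whose weight complexes are built from motives in `S`. -/
theorem bnd_built (hT : IsChowTheory Sm T) (hS : IsTwistStable T S) : Bnd True (T.Built S) := by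
  have hbun : ∀ (B : Type) [CommRing B] [Algebra k B] [Algebra.FiniteType k B] (m : ℕ)
      (f : Fin m → B) (U : Sch k) (j : U ⟶ aff k B), IsOpenImmersion j.left →
      Set.range j.left = {x : PrimeSpectrum B | ∃ l, f l ∉ x.asIdeal} →
      (T.Built S U ↔ T.Built S (aff k (Jou f))) := by
    intro B _ _ _ m f U j hj hr
    obtain ⟨e⟩ := hT.bundle B m f U j hj hr
    exact ⟨fun h => Thick.iso ⟨e⟩ (built_tw hS _ h),
      fun h => tw_tw hT hS _ (Thick.iso ⟨e.symm⟩ h)⟩
  have h1 : T.Built S (aff k k) := by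
    obtain ⟨e⟩ := hT.point
    exact Thick.iso ⟨e⟩ (.of ⟨_, hS.unit, rfl⟩)
  have hiso : ∀ {X Y : Sch k}, FT True X → Nonempty (X ≅ Y) → T.Built S X → T.Built S Y := by
    intro X Y hX e h
    obtain ⟨e'⟩ := hT.iso hX e
    exact Thick.iso ⟨e'.symm⟩ h
  exact
  { iso := hiso
    total := fun i j hX ht hZ hU => by
      obtain ⟨a, b, c, h⟩ := hT.localization i j hX ht
      exact Thick.two _ h hU hZ
    opened := fun i j hX ht hZ hX' => by
      obtain ⟨a, b, c, h⟩ := hT.localization i j hX ht
      exact Thick.one _ h hX' hZ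
    closed := fun i j hX ht hX' hU => by
      obtain ⟨a, b, c, h⟩ := hT.localization i j hX ht
      exact Thick.three _ h hU hX'
    space := fun m => by
      have h2 := (hbun k (m + 1) (f1 k m) (aff k k) (𝟙 _) inferInstance (range_id m)).mp h1
      exact hiso (ft_aff True) ⟨affIso (jouOne k m).symm⟩ h2
    jouanolou := fun B _ _ _ m f U j hj hr h => (hbun B m f U j hj hr).mpr h
    torus := fun B _ _ _ h => by
      obtain ⟨s, r, hsr⟩ := hT.torus B
      exact Thick.retract s r hsr (Thick.shift h)
    bundle := fun B _ _ _ m f U j hj hr h => (hbun B m f U j hj hr).mp h }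

lemma ft_of_smProj {X : Sch k} (hX : IsSmProj X) : FT True X := by
  have hp := hX.proper
  exact ⟨inferInstance, inferInstance, fun _ => inferInstance⟩

lemma built_smooth (hT : IsChowTheory Sm T) (hS : IsSummandClass S) {X : Sch k} (hX : Sm X) :
    T.Built S X ↔ S (T.h X) := by
  obtain ⟨e⟩ := hT.smooth X hX
  exact ⟨fun h => of_thick hS (Thick.iso ⟨e.symm⟩ h), fun h => Thick.iso ⟨e⟩ (.of ⟨_, h, rfl⟩)⟩

/-- The three statements for the dimension `n`. -/
theorem graded_of [PerfectField k] (hT : IsChowTheory Sm T) (hS : IsTwistStable T S)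
    (h1 : ∀ X, IsSmProj X → Sm X) (h2 : ∀ X, Sm X → FT True X) (n : ℕ)
    (hd : (∀ X : Sch k, IsSmProj X → topologicalKrullDim X.left ≤ n → T.Built S X) →
      ∀ X : Sch k, FT True X → topologicalKrullDim X.left ≤ n → T.Built S X) :
    ((∀ X : Sch k, Sm X → topologicalKrullDim X.left ≤ n → S (T.h X)) ↔
      ∀ X : Sch k, FT True X → topologicalKrullDim X.left ≤ n → T.Built S X) ∧
    ((∀ X : Sch k, Sm X → topologicalKrullDim X.left ≤ n → S (T.h X)) ↔
      ∀ (a b c : ℕ) (R : Fin a → Fin b → Fin c → k), (a ≤ n + 2 ∨ b ≤ n + 2 ∨ c ≤ n + 2) →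
        T.Built S (hypS R)) := by
  have hB := bnd_built hT hS
  have key : (∀ X : Sch k, Sm X → topologicalKrullDim X.left ≤ n → S (T.h X)) ↔
      ∀ X : Sch k, FT True X → topologicalKrullDim X.left ≤ n → T.Built S X := by
    constructor
    · intro h X hX hn
      exact hd (fun Y hY hd => (built_smooth hT hS.toIsSummandClass (h1 Y hY)).mpr
        (h Y (h1 Y hY) hd)) X hX hn
    · intro h X hX hd
      exact (built_smooth hT hS.toIsSummandClass hX).mp (h X (h2 X hX) hd)
  exact ⟨key, key.trans (dim_iff hB n)⟩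

/-- All smooth varieties in the class, all schemes, and all trilinear forms. -/
theorem all_of [PerfectField k] (hT : IsChowTheory Sm T) (hS : IsTwistStable T S)
    (h1 : ∀ X, IsSmProj X → Sm X) (h2 : ∀ X, Sm X → FT True X)
    (hd : ∀ n : ℕ, (∀ X : Sch k, IsSmProj X → topologicalKrullDim X.left ≤ n → T.Built S X) →
      ∀ X : Sch k, FT True X → topologicalKrullDim X.left ≤ n → T.Built S X) :
    (∀ X : Sch k, Sm X → S (T.h X)) ↔ ∀ X : Sch k, FT True X → T.Built S X := by
  have hB := bnd_built hT hS
  constructor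
  · intro h
    have h3 : ∀ (a b c : ℕ) (R : Fin a → Fin b → Fin c → k), T.Built S (hypS R) := by
      intro a b c R
      exact ((graded_of hT hS h1 h2 a (hd a)).2.mp fun X hX _ => h X hX) a b c R
        (Or.inl (by omega))
    exact (all_iff hB).mpr h3
  · intro h X hX
    exact (built_smooth hT hS.toIsSummandClass hX).mp (h X (h2 X hX))

/-- Fields all of whose elements are quotients of integers: tripartite hypergraphs. -/
theorem graphs_of [PerfectField k] (hk : Frac k) (hT : IsChowTheory Sm T)
    (hS : IsTwistStable T S) (h1 : ∀ X, IsSmProj X → Sm X) (h2 : ∀ X, Sm X → FT True X)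
    (hd : ∀ n : ℕ, (∀ X : Sch k, IsSmProj X → topologicalKrullDim X.left ≤ n → T.Built S X) →
      ∀ X : Sch k, FT True X → topologicalKrullDim X.left ≤ n → T.Built S X) :
    (∀ X : Sch k, Sm X → S (T.h X)) ↔
      ∀ (a b c : ℕ) (H : Finset (Fin a × Fin b × Fin c)), T.Built S (tripS k H) := by
  rw [all_of hT hS h1 h2 hd]
  constructor
  · intro h a b c H
    exact h _ (ft_aff True)
  · intro h X hX
    exact universal_frac hk (bnd_built hT hS).toUni h X hX

/-- Devissage by Hironaka's theorem. -/
theorem hironaka_devissage [PerfectField k] (hT : IsChowTheory Sm T) (hS : IsTwistStable T S)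
    (hH : Hironaka k) (n : ℕ)
    (h : ∀ X : Sch k, IsSmProj X → topologicalKrullDim X.left ≤ n → T.Built S X) :
    ∀ X : Sch k, FT True X → topologicalKrullDim X.left ≤ n → T.Built S X :=
  of_proj (bnd_built hT hS) hH n h

end theory

end Pool.Agent.V5helper48.WC
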