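import Pool.Agent.V5helper48.WC.Sign

/-!
# The conjectures of Murre for Chow motives
-/

set_option autoImplicit false
set_option linter.unusedSectionVars false

open CategoryTheory CategoryTheory.Limits AlgebraicGeometry
  Pool.Agent.Y116.UV Pool.Agent.V5helper77.GW
open scoped ZeroObject

namespace Pool.Agent.V5helper48.WC

variable {k : Type} [Field k] {T : ChowData k} {F : Type} [Field F]

/-- The motive `L^r = 𝟙(-r)`; `CH^r(M) = Hom(L^r, M)`. -/
noncomputable def ChowData.L (T : ChowData k) (r : ℤ) : T.C := (T.tw r).obj (T.h (aff k k))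

/-- The morphism `f` is homologically trivial. -/
def HomTriv (H : Cohomology T F) {M N : T.C} (f : M ⟶ N) : Prop := ∀ i, (H.H i).map f = 0

/-- The motive `M` has cohomology only in degree `i`. -/
def IsPure (H : Cohomology T F) (i : ℤ) (M : T.C) : Prop :=
  ∀ j, j ≠ i → IsZero ((H.H j).obj M)

/-- A **Chow-Künneth decomposition** of `M`: a finite direct sum decomposition `M = ⊕ M_i`, `i ∈ ℤ`,
where `M_i` has cohomology only in degree `i`. -/
structure CK (H : Cohomology T F) (M : T.C) where
  /-- the indices of the nonzero summands lie in the finite set `s` -/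
  s : Finset ℤ
  /-- the summands `M_i` -/
  N : ℤ → T.C
  /-- the inclusions -/
  a : ∀ i, N i ⟶ M
  /-- the projections -/
  b : ∀ i, M ⟶ N i
  ab : ∀ i, a i ≫ b i = 𝟙 (N i)
  ab_ne : ∀ i j, i ≠ j → a i ≫ b j = 0
  total : ∑ i ∈ s, b i ≫ a i = 𝟙 M
  pure : ∀ i, IsPure H i (N i)

variable {H : Cohomology T F}

/-- `(B)`: `CH^r(M_i) = 0` for `i > 2 r`. -/
def CK.B {M : T.C} (D : CK H M) : Prop := ∀ r i : ℤ, 2 * r < i → ∀ x : T.L r ⟶ D.N i, x = 0

/-- `(D)`: the homologically trivial elements of `CH^r(M_(2 r))` are zero. -/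
def CK.D {M : T.C} (D : CK H M) : Prop :=
  ∀ (r : ℤ) (x : T.L r ⟶ D.N (2 * r)), HomTriv H x → x = 0

/-- `x` lies in `F^ν CH^r(M) = ⊕_(i ≤ 2 r - ν) CH^r(M_i)`. -/
def CK.InF {M : T.C} (D : CK H M) (r ν : ℤ) (x : T.L r ⟶ M) : Prop :=
  ∀ i : ℤ, 2 * r - ν < i → x ≫ D.b i = 0

/-- The **conjectures of Murre** `(A)`, `(B)`, `(C)`, `(D)` for the motive `M`. -/
def MurreFor (H : Cohomology T F) (M : T.C) : Prop :=
  (∃ D : CK H M, D.B ∧ D.D) ∧ ∀ (D D' : CK H M) (r ν : ℤ) (x), D.InF r ν x ↔ D'.InF r ν x

/-- The properties which are used: `H^i(M(-r)) = H^(i - 2 r)(M)`; the point has cohomology in degree zero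
only; for motives `M` and `N` there is a motive `P = M^∨ ⊗ N` with `Hom(M, N) = CH^0(P)`, and
`P` has cohomology only in degree `j - i` if `M` and `N` have cohomology only in the degrees `i` and `j`;
each motive is a direct summand of a direct sum of Tate twists of motives `h X`. -/
structure IsWeilTheory (H : Cohomology T F) : Prop where
  twist : ∀ r i : ℤ, Nonempty (T.tw r ⋙ H.H i ≅ H.H (i - 2 * r))
  point : IsPure H 0 (T.h (aff k k))
  hom : ∀ M N : T.C, ∃ (P : T.C) (e : (M ⟶ N) ≃+ (T.L 0 ⟶ P)),
    (∀ f, HomTriv H f ↔ HomTriv H (e f)) ∧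
      ∀ i j : ℤ, IsPure H i M → IsPure H j N → IsPure H (j - i) P
  generated : ∀ S : T.C → Prop, IsTwistStable T S → (∀ X, IsSmProj X → S (T.h X)) → ∀ M, S M

/-- A **Murre class**: a class `S` of motives, closed under sums, summands and Tate twists, whose members
have Chow-Künneth decompositions, such that for members `M` and `N` with cohomology only in the degrees
`i` and `j` we have `Hom(M, N) = 0` for `i < j`, and for `i = j` all homologically trivial morphisms
`M → N` are zero. -/
structure IsMurreClass (H : Cohomology T F) (S : T.C → Prop) : Prop where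
  stable : IsTwistStable T S
  dec : ∀ M, S M → Nonempty (CK H M)
  vanish : ∀ {M N : T.C} {i j : ℤ}, S M → S N → IsPure H i M → IsPure H j N → i < j →
    ∀ f : M ⟶ N, f = 0
  faithful : ∀ {M N : T.C} {i : ℤ}, S M → S N → IsPure H i M → IsPure H i N →
    ∀ f : M ⟶ N, HomTriv H f → f = 0

section lemmas

lemma HomTriv.comp {M N P : T.C} {f : M ⟶ N} (h : HomTriv H f) (g : N ⟶ P) :
    HomTriv H (f ≫ g) := fun i => by rw [Functor.map_comp, h i, zero_comp]

lemma isPure_L (hH : IsWeilTheory H) (r : ℤ) :
    IsPure H (2 * r) (T.L r) := by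
  intro j hj
  obtain ⟨e⟩ := hH.twist r j
  exact (hH.point (j - 2 * r) (by omega)).of_iso (e.app _)

/-- The decomposition of a motive which has cohomology in one degree only. -/
noncomputable def trivialCK (w : ℤ) {P : T.C} (hP : IsPure H w P) : CK H P := by
  classical
  exact
  { s := {w}
    N := fun i => if i = w then P else 0
    a := fun i => if h : i = w then eqToHom (by simp [h]) else 0
    b := fun i => if h : i = w then eqToHom (by simp [h]) else 0
    ab := by
      intro i
      by_cases h : i = w
      · subst h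
        simp
      · have h1 : IsZero (if i = w then P else 0) := by
          rw [if_neg h]
          exact isZero_zero _
        exact h1.eq_of_src _ _
    ab_ne := by
      intro i j hij
      by_cases h : i = w
      · have h2 : j ≠ w := fun h2 => hij (h.trans h2.symm)
        simp [h2]
      · simp [h]
    total := by simp
    pure := by
      intro i
      by_cases h : i = w
      · subst h
        simpa using hP
      · intro j _
        have h1 : IsZero (if i = w then P else 0) := by
          rw [if_neg h]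
          exact isZero_zero _
        exact (H.H j).map_isZero h1 }

lemma trivialCK_inF {w : ℤ} {P : T.C} (hP : IsPure H w P) {r ν : ℤ} (h : 2 * r - ν < w)
    {x : T.L r ⟶ P} (hx : (trivialCK w hP).InF r ν x) : x = 0 := by
  have h1 := hx w h
  have h2 : (trivialCK w hP).a w = eqToHom (by simp [trivialCK]) := by simp [trivialCK]
  have h3 : (trivialCK w hP).b w ≫ (trivialCK w hP).a w = 𝟙 P := by simp [trivialCK]
  have h4 := congrArg (fun f => f ≫ (trivialCK w hP).a w) h1
  simpa only [Category.assoc, h3, Category.comp_id, zero_comp] using h4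

lemma CK.eq_sum {M : T.C} (D : CK H M) {X : T.C} (x : X ⟶ M) :
    x = ∑ i ∈ D.s, (x ≫ D.b i) ≫ D.a i := by
  have h : x = x ≫ ∑ i ∈ D.s, D.b i ≫ D.a i := by rw [D.total, Category.comp_id]
  rw [Preadditive.comp_sum] at h
  simpa only [Category.assoc] using h

end lemmas

end Pool.Agent.V5helper48.WC
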