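import Pool.Agent.V5helper48.WC.Murre

/-!
# The conjectures of Murre for Chow motives: Murre classes
-/

set_option autoImplicit false
set_option linter.unusedSectionVars false

open CategoryTheory CategoryTheory.Limits AlgebraicGeometry
  Pool.Agent.Y116.UV Pool.Agent.Q193.LT Pool.Agent.V5helper77.GW

namespace Pool.Agent.V5helper48.WC

variable {k : Type} [Field k] {T : ChowData k} {F : Type} [Field F] {H : Cohomology T F}

lemma stable_true : IsTwistStable T (fun _ => True) where
  zero := fun _ _ => trivial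
  retract := fun _ _ _ _ => trivial
  sum := fun _ _ => trivial
  twist := fun _ _ => Iff.rfl
  unit := trivial

theorem class_of_murre (hH : IsWeilTheory H) (h : ∀ M, MurreFor H M) :
    IsMurreClass H (fun _ => True) where
  stable := stable_true
  dec := fun M _ => ⟨(h M).1.choose⟩
  vanish := by
    intro M N i j _ _ hM hN hij f
    obtain ⟨P, e, he1, he2⟩ := hH.hom M N
    have hP := he2 i j hM hN
    obtain ⟨⟨D, hB, hD⟩, hC⟩ := h P
    have h1 : D.InF 0 0 (e f) := fun i' hi' => hB 0 i' (by omega) _
    have h2 := (hC D (trivialCK _ hP) 0 0 (e f)).mp h1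
    have h3 : e f = 0 := trivialCK_inF hP (by omega) h2
    exact (map_eq_zero_iff e e.injective).mp h3
  faithful := by
    intro M N i _ _ hM hN f hf
    obtain ⟨P, e, he1, he2⟩ := hH.hom M N
    have hP := he2 i i hM hN
    obtain ⟨⟨D, hB, hD⟩, hC⟩ := h P
    have h1 : D.InF 0 1 (e f) := by
      intro i' hi'
      by_cases hi : i' = 0
      · subst hi
        exact hD 0 (e f ≫ D.b 0) (((he1 f).mp hf).comp _)
      · exact hB 0 i' (by omega) _
    have h2 := (hC D (trivialCK _ hP) 0 1 (e f)).mp h1
    have h3 : e f = 0 := trivialCK_inF hP (by omega) h2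
    exact (map_eq_zero_iff e e.injective).mp h3

lemma inF_of_class (hS : IsMurreClass H (fun _ => True)) {M : T.C} (D D' : CK H M) {r ν : ℤ}
    {x : T.L r ⟶ M} (hx : D.InF r ν x) : D'.InF r ν x := by
  intro i hi
  have h1 : x ≫ D'.b i = ∑ j ∈ D.s, (x ≫ D.b j) ≫ (D.a j ≫ D'.b i) := by
    conv_lhs => rw [D.eq_sum x]
    rw [Preadditive.sum_comp]
    exact Finset.sum_congr rfl fun j _ => by simp only [Category.assoc]
  rw [h1]
  refine Finset.sum_eq_zero fun j _ => ?_
  by_cases hj : 2 * r - ν < j
  · rw [hx j hj, zero_comp]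
  · rw [hS.vanish trivial trivial (D.pure j) (D'.pure i) (by omega) (D.a j ≫ D'.b i), comp_zero]

theorem murre_of_class (hH : IsWeilTheory H) (hS : IsMurreClass H (fun _ => True)) (M : T.C) :
    MurreFor H M := by
  obtain ⟨D⟩ := hS.dec M trivial
  refine ⟨⟨D, ?_, ?_⟩, fun D D' r ν x => ⟨inF_of_class hS D D', inF_of_class hS D' D⟩⟩
  · intro r i hi x
    exact hS.vanish trivial trivial (isPure_L hH r) (D.pure i) hi x
  · intro r x hx
    exact hS.faithful trivial trivial (isPure_L hH r) (D.pure _) x hx

/-- The conjectures of Murre for all motives. -/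
theorem murre_iff (hH : IsWeilTheory H) :
    (∀ M, MurreFor H M) ↔ ∃ S, IsMurreClass H S ∧ ∀ X : Sch k, IsSmProj X → S (T.h X) := by
  constructor
  · intro h
    exact ⟨_, class_of_murre hH h, fun _ _ => trivial⟩
  · rintro ⟨S, hS, h⟩ M
    have h1 : ∀ M, S M := hH.generated S hS.stable h
    have h2 : S = fun _ => True := funext fun M => propext ⟨fun _ => trivial, fun _ => h1 M⟩
    rw [h2] at hS
    exact murre_of_class hH hS M

end Pool.Agent.V5helper48.WC
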