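import Pool.Agent.V5helper48.WC.Alt

/-!
# The sign conjecture for Chow motives
-/

set_option autoImplicit false
set_option linter.unusedSectionVars false

open CategoryTheory CategoryTheory.Limits AlgebraicGeometry
  Pool.Agent.Y116.UV Pool.Agent.V5helper77.GW

namespace Pool.Agent.V5helper48.WC

variable {k : Type} [Field k]

/-- `X` is smooth and proper over `k`. -/
def IsSmProper (X : Sch k) : Prop := Smooth X.hom ∧ IsProper X.hom

lemma IsSmProper.of_smProj {X : Sch k} (hX : IsSmProj X) : IsSmProper X := ⟨hX.smooth, hX.proper⟩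

lemma IsSmProper.ft {X : Sch k} (hX : IsSmProper X) : FT True X := by
  have hp := hX.2
  exact ⟨inferInstance, inferInstance, fun _ => inferInstance⟩

/-- A cohomology theory on the category of Chow motives, with coefficients in the field `F`:
`(H i).obj M = H^i(M)`. -/
structure Cohomology (T : ChowData k) (F : Type) [Field F] where
  /-- the cohomology of a motive in degree `i` -/
  H : ℤ → T.C ⥤ ModuleCat.{0} F
  [additive : ∀ i, (H i).Additive]

attribute [instance] Cohomology.additive

variable {T : ChowData k} {F : Type} [Field F]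

/-- The properties which are used: the Tate twists shift the cohomology by an even degree,
`H^i(M(-r)) = H^(i - 2 r)(M)`, and the cohomology of the point vanishes in odd degrees. -/
structure IsCohomology (H : Cohomology T F) : Prop where
  twist : ∀ r i : ℤ, Nonempty (T.tw r ⋙ H.H i ≅ H.H (i - 2 * r))
  point : ∀ i : ℤ, Odd i → IsZero ((H.H i).obj (T.h (aff k k)))

/-- **The sign conjecture** `C⁺` for the motive `M`: the projector onto the even part of its
cohomology is algebraic. For `M = h X` it is the statement `C⁺(X)`, because `End (h X)` is the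
group of correspondences of degree zero of `X` with rational coefficients. -/
def CPlus (H : Cohomology T F) (M : T.C) : Prop :=
  ∃ e : M ⟶ M, ∀ i : ℤ, (Even i → (H.H i).map e = 𝟙 _) ∧ (Odd i → (H.H i).map e = 0)

variable {H : Cohomology T F} {Sm : Sch k → Prop}

lemma cPlus_zero {M : T.C} (hM : IsZero M) : CPlus H M :=
  ⟨0, fun i => ⟨fun _ => ((H.H i).map_isZero hM).eq_of_src _ _, fun _ => (H.H i).map_zero _ _⟩⟩

lemma cPlus_retract {M N : T.C} (i : M ⟶ N) (r : N ⟶ M) (h : i ≫ r = 𝟙 M) (hN : CPlus H N) :
    CPlus H M := by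
  obtain ⟨e, he⟩ := hN
  refine ⟨i ≫ e ≫ r, fun j => ⟨fun hj => ?_, fun hj => ?_⟩⟩
  · rw [Functor.map_comp, Functor.map_comp, (he j).1 hj, Category.id_comp, ← Functor.map_comp, h,
      CategoryTheory.Functor.map_id]
  · rw [Functor.map_comp, Functor.map_comp, (he j).2 hj, zero_comp, comp_zero]

lemma cPlus_sum {M N : T.C} (hM : CPlus H M) (hN : CPlus H N) : CPlus H (M ⊞ N) := by
  obtain ⟨e, he⟩ := hM
  obtain ⟨f, hf⟩ := hN
  refine ⟨biprod.fst ≫ e ≫ biprod.inl + biprod.snd ≫ f ≫ biprod.inr, fun j => ⟨fun hj => ?_,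
    fun hj => ?_⟩⟩
  · rw [Functor.map_add, Functor.map_comp, Functor.map_comp, (he j).1 hj, Category.id_comp,
      Functor.map_comp, Functor.map_comp, (hf j).1 hj, Category.id_comp, ← Functor.map_comp,
      ← Functor.map_comp, ← Functor.map_add, biprod.total, CategoryTheory.Functor.map_id]
  · rw [Functor.map_add, Functor.map_comp, Functor.map_comp, (he j).2 hj, zero_comp, comp_zero,
      Functor.map_comp, Functor.map_comp, (hf j).2 hj, zero_comp, comp_zero, add_zero]

lemma cPlus_iso {M N : T.C} (e : M ≅ N) (h : CPlus H N) : CPlus H M :=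
  cPlus_retract e.hom e.inv e.hom_inv_id h

lemma cPlus_tw (hH : IsCohomology H) (r : ℤ) {M : T.C} (h : CPlus H M) :
    CPlus H ((T.tw r).obj M) := by
  obtain ⟨e, he⟩ := h
  refine ⟨(T.tw r).map e, fun i => ?_⟩
  obtain ⟨a⟩ := hH.twist r i
  have h1 : (H.H i).map ((T.tw r).map e) = a.hom.app M ≫ (H.H (i - 2 * r)).map e ≫ a.inv.app M := by
    have h2 := a.hom.naturality e
    rw [Functor.comp_map] at h2
    rw [← Category.assoc, ← h2, Category.assoc, Iso.hom_inv_id_app, Category.comp_id]
  constructor
  · intro hi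
    have h3 : Even (i - 2 * r) := hi.sub (even_two_mul r)
    rw [h1, (he _).1 h3, Category.id_comp, Iso.hom_inv_id_app]
    rfl
  · intro hi
    have h3 : Odd (i - 2 * r) := hi.sub_even (even_two_mul r)
    rw [h1, (he _).2 h3, zero_comp, comp_zero]

/-- The motives which satisfy the sign conjecture form a twist stable class. -/
theorem cPlus_stable (hT : IsChowTheory Sm T) (hH : IsCohomology H) :
    IsTwistStable T (CPlus H) where
  zero := fun _ hM => cPlus_zero hM
  retract := fun i r h hN => cPlus_retract i r h hN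
  sum := fun hM hN => cPlus_sum hM hN
  twist := by
    intro r M
    refine ⟨fun h => ?_, cPlus_tw hH r⟩
    have h1 := cPlus_tw hH (-r) h
    have e1 := (hT.tw_add (-r) r).some.app M
    have e2 := hT.tw_zero.some.app M
    rw [neg_add_cancel] at e1
    exact cPlus_iso (e2.symm ≪≫ e1.symm) h1
  unit := ⟨𝟙 _, fun i => ⟨fun _ => CategoryTheory.Functor.map_id _ _, fun hi =>
    (hH.point i hi).eq_of_src _ _⟩⟩

end Pool.Agent.V5helper48.WC
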