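import Mathlib

/-!
# Thick subcategories of the homotopy category of complexes
-/

set_option autoImplicit false

open CategoryTheory CategoryTheory.Limits CategoryTheory.Pretriangulated
open scoped ZeroObject

universe v u

namespace Pool.Agent.V5helper48.WC

/-- The thick subcategory generated by the class `P` of objects of a triangulated category: the
smallest class which contains `P` and the zero objects, which is closed under direct summands, and
which contains all three vertices of a distinguished triangle if it contains two of them. -/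
inductive Thick {D : Type u} [Category.{v} D] [Preadditive D] [HasZeroObject D] [HasShift D ℤ]
    [∀ n : ℤ, (shiftFunctor D n).Additive] [Pretriangulated D] (P : D → Prop) : D → Prop
  | of {K : D} : P K → Thick P K
  | zero {K : D} : IsZero K → Thick P K
  | retract {K L : D} (i : K ⟶ L) (r : L ⟶ K) : i ≫ r = 𝟙 K → Thick P L → Thick P K
  | one (T : Triangle D) : T ∈ distTriang D → Thick P T.obj₂ → Thick P T.obj₃ → Thick P T.obj₁
  | two (T : Triangle D) : T ∈ distTriang D → Thick P T.obj₁ → Thick P T.obj₃ → Thick P T.obj₂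
  | three (T : Triangle D) : T ∈ distTriang D → Thick P T.obj₁ → Thick P T.obj₂ → Thick P T.obj₃

/-- Bounded and unbounded complexes over `C` up to homotopy. -/
abbrev KCat (C : Type u) [Category.{v} C] [Preadditive C] : Type (max u v) :=
  HomotopyCategory C (ComplexShape.up ℤ)

/-- The complex with the object `M` in degree zero. -/
noncomputable def inZero {C : Type u} [Category.{v} C] [Preadditive C] [HasZeroObject C] (M : C) :
    KCat C :=
  (HomotopyCategory.quotient C (ComplexShape.up ℤ)).obj
    ((HomologicalComplex.single C (ComplexShape.up ℤ) 0).obj M)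

/-- A class of objects of an additive category which is closed under direct sums and direct
summands. -/
structure IsSummandClass {C : Type u} [Category.{v} C] [Preadditive C] [HasBinaryBiproducts C]
    (S : C → Prop) : Prop where
  zero : ∀ M, IsZero M → S M
  retract : ∀ {M N : C} (i : M ⟶ N) (r : N ⟶ M), i ≫ r = 𝟙 M → S N → S M
  sum : ∀ {M N : C}, S M → S N → S (M ⊞ N)

section

variable {C : Type u} [Category.{v} C] [Preadditive C] [HasZeroObject C] [HasBinaryBiproducts C]
  {S : C → Prop} (hS : IsSummandClass S)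

include hS in
/-- The morphisms which factor through an object of the class. -/
def ideal (X Y : C) : AddSubgroup (X ⟶ Y) where
  carrier := {f | ∃ (M : C) (_ : S M) (a : X ⟶ M) (b : M ⟶ Y), a ≫ b = f}
  zero_mem' := ⟨(0 : C), hS.zero _ (isZero_zero C), 0, 0, by simp⟩
  add_mem' := by
    rintro f g ⟨M, hM, a, b, rfl⟩ ⟨N, hN, c, d, rfl⟩
    exact ⟨M ⊞ N, hS.sum hM hN, biprod.lift a c, biprod.desc b d, biprod.lift_desc ..⟩
  neg_mem' := by
    rintro f ⟨M, hM, a, b, rfl⟩
    exact ⟨M, hM, a, -b, by simp⟩

/-- The functor `Y ↦ Hom(X, Y) / ideal`. -/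
def homMod (X : C) : C ⥤ AddCommGrpCat.{v} where
  obj Y := AddCommGrpCat.of ((X ⟶ Y) ⧸ ideal hS X Y)
  map {Y Z} f := AddCommGrpCat.ofHom (QuotientAddGroup.map (ideal hS X Y) (ideal hS X Z)
    (Preadditive.rightComp X f) (by
      rintro g ⟨M, hM, a, b, rfl⟩
      exact ⟨M, hM, a, b ≫ f, by simp [Preadditive.rightComp]⟩))
  map_id Y := by
    ext x
    simp [Preadditive.rightComp]
  map_comp f g := by
    ext x
    simp [Preadditive.rightComp]

lemma homMod_map_mk (X : C) {Y Z : C} (f : Y ⟶ Z) (g : X ⟶ Y) :
    ((homMod hS X).map f).hom (QuotientAddGroup.mk g : (X ⟶ Y) ⧸ ideal hS X Y) =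
      (QuotientAddGroup.mk (g ≫ f) : (X ⟶ Z) ⧸ ideal hS X Z) := rfl

instance (X : C) : (homMod hS X).Additive where
  map_add {Y Z f g} := by
    ext x
    obtain ⟨x, rfl⟩ := QuotientAddGroup.mk_surjective (s := ideal hS X Y) x
    change (QuotientAddGroup.mk (x ≫ (f + g)) : (X ⟶ Z) ⧸ ideal hS X Z) =
      QuotientAddGroup.mk (x ≫ f) + QuotientAddGroup.mk (x ≫ g)
    rw [Preadditive.comp_add]
    rfl

lemma homMod_zero {X M : C} (hM : S M) : IsZero ((homMod hS X).obj M) := by
  have h : Subsingleton ((X ⟶ M) ⧸ ideal hS X M) := by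
    refine ⟨fun x y => ?_⟩
    obtain ⟨x, rfl⟩ := QuotientAddGroup.mk_surjective x
    obtain ⟨y, rfl⟩ := QuotientAddGroup.mk_surjective y
    rw [QuotientAddGroup.eq]
    exact ⟨M, hM, -x + y, 𝟙 M, by simp⟩
  have h' : Subsingleton ((homMod hS X).obj M) := h
  exact AddCommGrpCat.isZero_of_subsingleton _

lemma of_homMod_zero {X : C} (h : IsZero ((homMod hS X).obj X)) : S X := by
  have h1 : Subsingleton ((homMod hS X).obj X) := AddCommGrpCat.subsingleton_of_isZero h
  have h2 : (QuotientAddGroup.mk (𝟙 X) : (X ⟶ X) ⧸ ideal hS X X) = QuotientAddGroup.mk 0 :=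
    h1.elim _ _
  rw [eq_comm, QuotientAddGroup.eq] at h2
  obtain ⟨M, hM, a, b, h3⟩ := h2
  rw [neg_zero, zero_add] at h3
  exact hS.retract a b h3 hM

/-- `K` is acyclic after application of the functor. -/
def Dead (X : C) (K : KCat C) : Prop :=
  HomotopyCategory.subcategoryAcyclic AddCommGrpCat.{v}
    (((homMod hS X).mapHomotopyCategory (ComplexShape.up ℤ)).obj K)

lemma dead_inZero_iff (X M : C) : Dead hS X (inZero M) ↔ IsZero ((homMod hS X).obj M) := by
  let e : ((homMod hS X).mapHomologicalComplex (ComplexShape.up ℤ)).obj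
      ((HomologicalComplex.single C (ComplexShape.up ℤ) 0).obj M) ≅
      (HomologicalComplex.single AddCommGrpCat.{v} (ComplexShape.up ℤ) 0).obj
        ((homMod hS X).obj M) :=
    (HomologicalComplex.singleMapHomologicalComplex (homMod hS X) (ComplexShape.up ℤ) 0).app M
  have h1 : Dead hS X (inZero M) ↔ HomotopyCategory.subcategoryAcyclic AddCommGrpCat.{v}
      ((HomotopyCategory.quotient _ _).obj
        ((HomologicalComplex.single AddCommGrpCat.{v} (ComplexShape.up ℤ) 0).obj
          ((homMod hS X).obj M))) :=
    (HomotopyCategory.subcategoryAcyclic AddCommGrpCat.{v}).prop_iff_of_iso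
      ((HomotopyCategory.quotient _ _).mapIso e)
  rw [h1, HomotopyCategory.quotient_obj_mem_subcategoryAcyclic_iff_exactAt]
  constructor
  · intro h
    have h2 := (HomologicalComplex.exactAt_iff_isZero_homology _ _).mp (h 0)
    exact h2.of_iso (HomologicalComplex.singleObjHomologySelfIso _ _ _).symm
  · intro h n
    by_cases hn : n = 0
    · subst hn
      rw [HomologicalComplex.exactAt_iff_isZero_homology]
      exact h.of_iso (HomologicalComplex.singleObjHomologySelfIso _ _ _)
    · exact HomologicalComplex.exactAt_single_obj _ _ _ _ hn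

lemma dead_retract (X : C) {K L : KCat C} (i : K ⟶ L) (r : L ⟶ K) (h : i ≫ r = 𝟙 K)
    (hL : Dead hS X L) : Dead hS X K := by
  unfold Dead at hL ⊢
  rw [HomotopyCategory.mem_subcategoryAcyclic_iff] at hL ⊢
  intro n
  let F := (homMod hS X).mapHomotopyCategory (ComplexShape.up ℤ) ⋙
    HomotopyCategory.homologyFunctor AddCommGrpCat.{v} (ComplexShape.up ℤ) n
  have h1 : F.map i ≫ F.map r = 𝟙 _ := by rw [← F.map_comp, h, F.map_id]
  have h2 : F.map i = 0 := (hL n).eq_zero_of_tgt _
  rw [h2, zero_comp] at h1
  exact (IsZero.iff_id_eq_zero _).mpr h1.symm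

theorem dead_thick (X : C) {K : KCat C} (h : Thick (fun K => ∃ M, S M ∧ K = inZero M) K) :
    Dead hS X K := by
  let F := (homMod hS X).mapHomotopyCategory (ComplexShape.up ℤ)
  induction h with
  | of h =>
    obtain ⟨M, hM, rfl⟩ := h
    exact (dead_inZero_iff hS X M).mpr (homMod_zero hS hM)
  | zero h => exact (HomotopyCategory.subcategoryAcyclic _).prop_of_isZero (F.map_isZero h)
  | @retract K L i r h _ ih =>
    exact dead_retract hS X i r h ih
  | one T hT _ _ h2 h3 =>
    exact (HomotopyCategory.subcategoryAcyclic _).ext_of_isTriangulatedClosed₁ _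
      (F.map_distinguished T hT) h2 h3
  | two T hT _ _ h2 h3 =>
    exact (HomotopyCategory.subcategoryAcyclic _).ext_of_isTriangulatedClosed₂ _
      (F.map_distinguished T hT) h2 h3
  | three T hT _ _ h2 h3 =>
    exact (HomotopyCategory.subcategoryAcyclic _).ext_of_isTriangulatedClosed₃ _
      (F.map_distinguished T hT) h2 h3

include hS in
/-- An object of the additive category which lies in the thick subcategory generated by a class of
objects closed under sums and summands is in this class. -/
theorem of_thick {X : C} (h : Thick (fun K => ∃ M, S M ∧ K = inZero M) (inZero X)) : S X :=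
  of_homMod_zero hS ((dead_inZero_iff hS X X).mp (dead_thick hS X h))

end

end Pool.Agent.V5helper48.WC
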